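import Pool.Agent.Run7.h342.MD.Stm

/-!
# Project MD (helper342), piece EXP
-/

set_option autoImplicit false

namespace Run7.h999.MD

open MvPolynomial Run7.h342.MD

noncomputable section

variable {n d : ℕ} {k : Type} [Field k]

/-! ## Regular functions on `GL_n` -/

theorem reg_add {f f' : GL (Fin n) k → k} (h : RegG f) (h' : RegG f') : RegG (f + f') :=
  (OG n k).add_mem h h'

theorem reg_mul {f f' : GL (Fin n) k → k} (h : RegG f) (h' : RegG f') : RegG (f * f') :=
  (OG n k).mul_mem h h'

theorem reg_const (a : k) : RegG (fun _ : GL (Fin n) k => a) := (OG n k).algebraMap_mem a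

theorem reg_sum {ι : Type} (s : Finset ι) (f : ι → GL (Fin n) k → k) (h : ∀ i, RegG (f i)) :
    RegG (∑ i ∈ s, f i) := (OG n k).sum_mem fun i _ => h i

/-- entries of `g` -/
theorem reg_ent (i j : Fin n) : RegG (fun g : GL (Fin n) k => g.1 i j) := by
  refine ⟨X (i, j), 0, fun g => ?_⟩
  rw [pow_zero, mul_one, eval_X]
  rfl

/-- entries of `g⁻¹` -/
theorem reg_inv (i j : Fin n) : RegG (fun g : GL (Fin n) k => (g⁻¹ : GL (Fin n) k).1 i j) := by
  refine ⟨(Matrix.mvPolynomialX (Fin n) (Fin n) k).adjugate i j, 1, fun g => ?_⟩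
  have h1 : (g⁻¹ : GL (Fin n) k).1 * g.1 = 1 := g.inv_mul
  have h2 : g.1.det • (g⁻¹ : GL (Fin n) k).1 = g.1.adjugate := by
    have h3 : (g⁻¹ : GL (Fin n) k).1 * (g.1 * g.1.adjugate) = g.1.adjugate := by
      rw [← Matrix.mul_assoc, h1, Matrix.one_mul]
    rw [Matrix.mul_adjugate, Matrix.mul_smul, Matrix.mul_one] at h3
    exact h3
  have h4 : eval (ent g.1) ((Matrix.mvPolynomialX (Fin n) (Fin n) k).adjugate i j) =
      g.1.adjugate i j := by
    have h5 : (Matrix.mvPolynomialX (Fin n) (Fin n) k).map (eval (ent g.1)) = g.1 := by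
      ext a b
      rw [Matrix.map_apply, Matrix.mvPolynomialX_apply, eval_X]
      rfl
    have h6 := (eval (ent g.1)).map_adjugate (Matrix.mvPolynomialX (Fin n) (Fin n) k)
    rw [RingHom.mapMatrix_apply, RingHom.mapMatrix_apply, h5] at h6
    rw [← h6, Matrix.map_apply]
  rw [h4, pow_one, ← h2, Matrix.smul_apply, smul_eq_mul, mul_comm]

/-- families of polynomials with regular coefficients -/
def RegP (P : GL (Fin n) k → MvPolynomial (Fin n) k) : Prop :=
  ∀ s, RegG (fun g => coeff s (P g))

theorem regP_add {P Q : GL (Fin n) k → MvPolynomial (Fin n) k} (h : RegP P) (h' : RegP Q) :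
    RegP (fun g => P g + Q g) := by
  intro s
  have : (fun g => coeff s (P g + Q g)) = (fun g => coeff s (P g)) + fun g => coeff s (Q g) := by
    funext g
    rw [coeff_add]
    rfl
  rw [this]
  exact reg_add (h s) (h' s)

theorem regP_mul {P Q : GL (Fin n) k → MvPolynomial (Fin n) k} (h : RegP P) (h' : RegP Q) :
    RegP (fun g => P g * Q g) := by
  classical
  intro s
  have : (fun g => coeff s (P g * Q g)) = ∑ p ∈ Finset.HasAntidiagonal.antidiagonal s,
      ((fun g => coeff p.1 (P g)) * fun g => coeff p.2 (Q g)) := by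
    funext g
    rw [coeff_mul, Finset.sum_apply]
    rfl
  rw [this]
  exact reg_sum _ _ fun p => reg_mul (h p.1) (h' p.2)

theorem regP_C {f : GL (Fin n) k → k} (h : RegG f) : RegP (fun g => C (f g)) := by
  classical
  intro s
  by_cases hs : 0 = s
  · have : (fun g => coeff s (C (σ := Fin n) (f g))) = f := by
      funext g
      rw [coeff_C, if_pos hs]
    rw [this]
    exact h
  · have : (fun g => coeff s (C (σ := Fin n) (f g))) = fun _ => 0 := by
      funext g
      rw [coeff_C, if_neg hs]
    rw [this]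
    exact reg_const 0

theorem regP_fix (p : MvPolynomial (Fin n) k) : RegP (fun _ : GL (Fin n) k => p) :=
  fun _ => reg_const _

theorem regP_sum {ι : Type} (s : Finset ι) (P : ι → GL (Fin n) k → MvPolynomial (Fin n) k)
    (h : ∀ i, RegP (P i)) : RegP (fun g => ∑ i ∈ s, P i g) := by
  intro t
  have : (fun g => coeff t (∑ i ∈ s, P i g)) = ∑ i ∈ s, fun g => coeff t (P i g) := by
    funext g
    rw [coeff_sum, Finset.sum_apply]
  rw [this]
  exact reg_sum _ _ fun i => h i t

theorem regP_aeval (P : Fin n → GL (Fin n) k → MvPolynomial (Fin n) k) (h : ∀ i, RegP (P i))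
    (p : MvPolynomial (Fin n) k) : RegP (fun g => aeval (fun l => P l g) p) := by
  induction p using MvPolynomial.induction_on with
  | C a =>
    have : (fun g : GL (Fin n) k => aeval (fun l => P l g) (C a)) =
        fun _ => (C a : MvPolynomial (Fin n) k) := by
      funext g
      rw [aeval_C]
      rfl
    rw [this]
    exact regP_fix _
  | add p q hp hq =>
    have : (fun g : GL (Fin n) k => aeval (fun l => P l g) (p + q)) =
        fun g => aeval (fun l => P l g) p + aeval (fun l => P l g) q := by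
      funext g
      rw [map_add]
    rw [this]
    exact regP_add hp hq
  | mul_X p i hp =>
    have : (fun g : GL (Fin n) k => aeval (fun l => P l g) (p * X i)) =
        fun g => aeval (fun l => P l g) p * P i g := by
      funext g
      rw [map_mul, aeval_X]
    rw [this]
    exact regP_mul hp (h i)

/-- coordinates of `tw` -/
theorem reg_tw (A B : GL (Fin n) k → Matrix (Fin n) (Fin n) k)
    (hA : ∀ i j, RegG fun g => A g i j) (hB : ∀ i j, RegG fun g => B g i j) (c : Ix n d → k)
    (q : Ix n d) : RegG (fun g => tw (A g) (B g) c q) := by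
  have h : RegP (fun g => ∑ j, C (A g q.1 j) *
      aeval (fun l => ∑ m, C (B g l m) * X m : Fin n → MvPolynomial (Fin n) k) (pol c j)) := by
    refine regP_sum _ _ fun j => ?_
    refine regP_mul (regP_C (hA q.1 j)) ?_
    refine regP_aeval (fun l g => ∑ m, C (B g l m) * X m) (fun l => ?_) _
    exact regP_sum _ _ fun m => regP_mul (regP_C (hB l m)) (regP_fix _)
  exact h _

theorem reg_act (c : Ix n d → k) (q : Ix n d) : RegG (fun g : GL (Fin n) k => act g c q) :=
  reg_tw _ _ reg_ent reg_inv c q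

theorem reg_act_inv (c : Ix n d → k) (q : Ix n d) :
    RegG (fun g : GL (Fin n) k => act g⁻¹ c q) := by
  have h := reg_tw (fun g : GL (Fin n) k => (g⁻¹ : GL (Fin n) k).1) (fun g => g.1) reg_inv reg_ent
    c q
  have e : (fun g : GL (Fin n) k => act g⁻¹ c q) =
      fun g : GL (Fin n) k => tw (g⁻¹ : GL (Fin n) k).1 g.1 c q := by
    funext g
    unfold act
    rw [inv_inv]
  rw [e]
  exact h

/-- polynomials of regular functions -/
theorem reg_eval (F : GL (Fin n) k → Ix n d → k) (h : ∀ q, RegG fun g => F g q)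
    (P : MvPolynomial (Ix n d) k) : RegG (fun g => eval (F g) P) := by
  induction P using MvPolynomial.induction_on with
  | C a =>
    have : (fun g => eval (F g) (C a)) = fun _ => a := by
      funext g
      rw [eval_C]
    rw [this]
    exact reg_const a
  | add p q hp hq =>
    have : (fun g => eval (F g) (p + q)) = (fun g => eval (F g) p) + fun g => eval (F g) q := by
      funext g
      rw [map_add]
      rfl
    rw [this]
    exact reg_add hp hq
  | mul_X p i hp =>
    have : (fun g => eval (F g) (p * X i)) = (fun g => eval (F g) p) * fun g => F g i := by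
      funext g
      rw [map_mul, eval_X]
      rfl
    rw [this]
    exact reg_mul hp (h i)

/-! ## Linearity of the action -/

section act

variable [Infinite k]

/-- the action as a linear map -/
def actL (g : GL (Fin n) k) : (Ix n d → k) →ₗ[k] (Ix n d → k) where
  toFun := act g
  map_add' := act_add g
  map_smul' := act_smul g

theorem actL_apply (g : GL (Fin n) k) (c : Ix n d → k) : actL g c = act g c := rfl

omit [Infinite k] in
theorem eq_sum_single (c : Ix n d → k) :
    c = ∑ p, c p • (Pi.single p (1 : k) : Ix n d → k) := by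
  funext q
  rw [Finset.sum_apply, Finset.sum_eq_single q]
  · rw [Pi.smul_apply, Pi.single_eq_same, smul_eq_mul, mul_one]
  · intro p _ hp
    rw [Pi.smul_apply, Pi.single_eq_of_ne hp.symm, smul_zero]
  · intro h
    exact absurd (Finset.mem_univ q) h

theorem act_eq_sum (g : GL (Fin n) k) (c : Ix n d → k) (q : Ix n d) :
    act g c q = ∑ p, act g (Pi.single p 1) q * c p := by
  have h1 : actL g c = ∑ p, c p • actL g (Pi.single p (1 : k) : Ix n d → k) := by
    conv_lhs => rw [eq_sum_single c]
    rw [map_sum]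
    exact Finset.sum_congr rfl fun p _ => map_smul _ _ _
  rw [actL_apply] at h1
  rw [h1, Finset.sum_apply]
  refine Finset.sum_congr rfl fun p _ => ?_
  rw [Pi.smul_apply, smul_eq_mul, mul_comm, actL_apply]

/-- `P(act g ·)` as a polynomial -/
def subP (g : GL (Fin n) k) (P : MvPolynomial (Ix n d) k) : MvPolynomial (Ix n d) k :=
  aeval (fun q => ∑ p, C (act g (Pi.single p 1) q) * X p : Ix n d → MvPolynomial (Ix n d) k) P

theorem eval_subP (g : GL (Fin n) k) (P : MvPolynomial (Ix n d) k) (c : Ix n d → k) :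
    eval c (subP g P) = eval (act g c) P := by
  unfold subP
  rw [eval_aeval]
  congr 2
  funext q
  rw [map_sum, act_eq_sum]
  refine Finset.sum_congr rfl fun p _ => ?_
  rw [map_mul, eval_C, eval_X]

omit [Infinite k] in
theorem totalDegree_subP (g : GL (Fin n) k) (P : MvPolynomial (Ix n d) k) :
    (subP g P).totalDegree ≤ P.totalDegree := by
  unfold subP
  rw [aeval_def, eval₂_eq]
  refine totalDegree_finsetSum_le fun s hs => ?_
  refine (totalDegree_mul _ _).trans ?_
  have h1 : (algebraMap k (MvPolynomial (Ix n d) k) (coeff s P)).totalDegree = 0 :=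
    totalDegree_C _
  rw [h1, zero_add]
  refine (totalDegree_finsetProd _ _).trans ?_
  refine le_trans ?_ (le_totalDegree hs)
  rw [Finsupp.sum]
  refine Finset.sum_le_sum fun q _ => ?_
  refine (totalDegree_pow _ _).trans ?_
  have h2 : (∑ p, C (act g (Pi.single p 1) q) * X p : MvPolynomial (Ix n d) k).totalDegree ≤ 1 := by
    refine totalDegree_finsetSum_le fun p _ => ?_
    refine (totalDegree_mul _ _).trans ?_
    rw [totalDegree_C, totalDegree_X]
  calc s q * _ ≤ s q * 1 := Nat.mul_le_mul_left _ h2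
    _ = s q := mul_one _

end act

/-! ## Semi-invariance of the resultant -/

section main

theorem dvd_of_vanish [IsAlgClosed k] {σ : Type} [Finite σ] {Θ P : MvPolynomial σ k}
    (hΘ : Irreducible Θ) (h : ∀ x : σ → k, eval x Θ = 0 → eval x P = 0) : Θ ∣ P := by
  have e : ∀ (x : σ → k) (p : MvPolynomial σ k), aeval x p = eval x p := by
    intro x p
    rw [← coe_aeval_eq_eval]
    rfl
  have h1 : P ∈ vanishingIdeal k (zeroLocus k (Ideal.span {Θ})) := by
    intro x hx
    rw [e]
    apply h
    rw [← e]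
    exact hx Θ (Ideal.subset_span rfl)
  rw [vanishingIdeal_zeroLocus_eq_radical] at h1
  obtain ⟨m, hm⟩ := h1
  rw [Ideal.mem_span_singleton] at hm
  exact hΘ.prime.dvd_of_dvd_pow hm

variable [IsAlgClosed k] [CharZero k]

theorem semi {Θ : MvPolynomial (Ix n d) k} (hΘ : IsRes Θ) (g : GL (Fin n) k) :
    ∃ χ : k, ∀ x : Ix n d → k, eval (act g x) Θ = χ * eval x Θ := by
  have h1 : Θ ∣ subP g Θ := dvd_of_vanish hΘ.irr fun x hx => by
    rw [eval_subP]
    by_contra h2
    have h3 : Nondeg (act g x) := (hΘ.iff _).1 h2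
    have h4 : Nondeg x := by
      have := nondeg_act g⁻¹ _ h3
      rwa [← act_mul, inv_mul_cancel, act_one] at this
    exact (hΘ.iff x).2 h4 hx
  obtain ⟨q, hq⟩ := h1
  by_cases h0 : subP g Θ = 0
  · refine ⟨0, fun x => ?_⟩
    rw [← eval_subP, h0, map_zero, zero_mul]
  · have hq0 : q ≠ 0 := by
      intro h
      apply h0
      rw [hq, h, mul_zero]
    have h5 := totalDegree_subP g Θ
    rw [hq, totalDegree_mul_of_isDomain hΘ.irr.ne_zero hq0] at h5
    have h6 : q.totalDegree = 0 := by omega
    rw [totalDegree_eq_zero_iff_eq_C] at h6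
    refine ⟨coeff 0 q, fun x => ?_⟩
    have h7 : eval x q = coeff 0 q := by
      conv_lhs => rw [h6]
      exact eval_C _
    rw [← eval_subP, hq, map_mul, h7, mul_comm]

/-! ## Expansions -/

/-- expansion property -/
def E (φ : U n d k → k) : Prop := ∃ (ι : Type) (_ : Fintype ι) (f : ι → GL (Fin n) k → k)
  (ψ : ι → U n d k → k), (∀ i, RegG (f i)) ∧ (∀ i, RegU (ψ i)) ∧
    ∀ g x, φ (gact g x) = ∑ i, f i g * ψ i x

omit [IsAlgClosed k] [CharZero k] in
theorem E_add {φ ψ : U n d k → k} (h : E φ) (h' : E ψ) : E (φ + ψ) := by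
  obtain ⟨ι, hι, f, a, h1, h2, h3⟩ := h
  obtain ⟨κ, hκ, f', a', h1', h2', h3'⟩ := h'
  refine ⟨ι ⊕ κ, inferInstance, Sum.elim f f', Sum.elim a a', ?_, ?_, fun g x => ?_⟩
  · rintro (i | i)
    exacts [h1 i, h1' i]
  · rintro (i | i)
    exacts [h2 i, h2' i]
  · rw [Pi.add_apply, h3, h3', Fintype.sum_sum_type]
    rfl

omit [IsAlgClosed k] [CharZero k] in
theorem E_mul {φ ψ : U n d k → k} (h : E φ) (h' : E ψ) : E (φ * ψ) := by
  obtain ⟨ι, hι, f, a, h1, h2, h3⟩ := h
  obtain ⟨κ, hκ, f', a', h1', h2', h3'⟩ := h'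
  refine ⟨ι × κ, inferInstance, fun p => f p.1 * f' p.2, fun p => a p.1 * a' p.2,
    fun p => reg_mul (h1 _) (h1' _), fun p => (OU n d k).mul_mem (h2 _) (h2' _), fun g x => ?_⟩
  rw [Pi.mul_apply, h3, h3', Finset.sum_mul_sum, Fintype.sum_prod_type]
  refine Finset.sum_congr rfl fun i _ => Finset.sum_congr rfl fun j _ => ?_
  simp only [Pi.mul_apply]
  ring

omit [IsAlgClosed k] [CharZero k] in
theorem E_const (a : k) : E (fun _ : U n d k => a) :=
  ⟨Unit, inferInstance, fun _ _ => a, fun _ => 1, fun _ => reg_const a,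
    fun _ => (OU n d k).one_mem, fun g x => by simp⟩

omit [IsAlgClosed k] [CharZero k] in
theorem E_pow {φ : U n d k → k} (h : E φ) (m : ℕ) : E (φ ^ m) := by
  induction m with
  | zero =>
    rw [pow_zero]
    exact E_const 1
  | succ m ih =>
    rw [pow_succ]
    exact E_mul ih h

omit [IsAlgClosed k] in
theorem E_coord (q : Ix n d) : E (fun x : U n d k => x.1 q) :=
  ⟨Ix n d, inferInstance, fun p g => act g (Pi.single p 1) q, fun p x => x.1 p,
    fun p => reg_act _ _,
    fun p => ⟨X p, 1, fun x => ⟨by rw [map_one]; exact one_ne_zero,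
      by rw [map_one, eval_X, div_one]⟩⟩,
    fun g x => act_eq_sum g x.1 q⟩

omit [IsAlgClosed k] in
theorem E_eval (P : MvPolynomial (Ix n d) k) : E (fun x : U n d k => eval x.1 P) := by
  induction P using MvPolynomial.induction_on with
  | C a =>
    have : (fun x : U n d k => eval x.1 (C a)) = fun _ => a := by
      funext g
      rw [eval_C]
    rw [this]
    exact E_const a
  | add p q hp hq =>
    have : (fun x : U n d k => eval x.1 (p + q)) =
        (fun x : U n d k => eval x.1 p) + fun x : U n d k => eval x.1 q := by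
      funext g
      rw [map_add]
      rfl
    rw [this]
    exact E_add hp hq
  | mul_X p i hp =>
    have : (fun x : U n d k => eval x.1 (p * X i)) =
        (fun x : U n d k => eval x.1 p) * fun x : U n d k => x.1 i := by
      funext g
      rw [map_mul, eval_X]
      rfl
    rw [this]
    exact E_mul hp (E_coord i)

theorem E_inv {Θ : MvPolynomial (Ix n d) k} (hΘ : IsRes Θ) :
    E (fun x : U n d k => (eval x.1 Θ)⁻¹) := by
  by_cases hU : Nonempty (U n d k)
  · obtain ⟨x₀⟩ := hU
    have hA : eval x₀.1 Θ ≠ 0 := (hΘ.iff _).2 x₀.2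
    refine ⟨Unit, inferInstance, fun _ g => (eval x₀.1 Θ)⁻¹ * eval (act g⁻¹ x₀.1) Θ,
      fun _ x => (eval x.1 Θ)⁻¹,
      fun _ => reg_mul (reg_const _) (reg_eval (fun g => act g⁻¹ x₀.1) (reg_act_inv x₀.1) Θ),
      fun _ => ⟨1, Θ, fun x => ⟨(hΘ.iff _).2 x.2, by rw [map_one, one_div]⟩⟩, fun g x => ?_⟩
    obtain ⟨c, hc⟩ := semi hΘ g
    have h1 := hc (act g⁻¹ x₀.1)
    rw [← act_mul, mul_inv_cancel, act_one] at h1
    have h2 := hc x.1
    have hx : eval x.1 Θ ≠ 0 := (hΘ.iff _).2 x.2
    have hc0 : c ≠ 0 := by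
      intro h
      rw [h, zero_mul] at h1
      exact hA h1
    have hB : eval (act g⁻¹ x₀.1) Θ ≠ 0 := by
      intro h
      rw [h, mul_zero] at h1
      exact hA h1
    change (eval (act g x.1) Θ)⁻¹ = ∑ _i : Unit, _
    rw [Fintype.sum_unique, h2, h1]
    field_simp
  · exact ⟨Empty, inferInstance, fun i => i.elim, fun i => i.elim, fun i => i.elim,
      fun i => i.elim, fun g x => (hU ⟨x⟩).elim⟩

/-- **EXP**, without conditions on `n`, `d` -/
theorem exp (hR : S_RES n d k) (hP : S_REPU n d k) : S_EXP n d k := by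
  obtain ⟨Θ, hΘ⟩ := hR
  intro φ hφ
  obtain ⟨P, m, hr⟩ := (hP Θ hΘ).1 φ hφ
  have h0 : φ = (fun x : U n d k => eval x.1 P) * (fun x : U n d k => (eval x.1 Θ)⁻¹) ^ m := by
    funext x
    rw [(hr x).2, map_pow, Pi.mul_apply, Pi.pow_apply, inv_pow, div_eq_mul_inv]
  have h1 : E φ := by
    rw [h0]
    exact E_mul (E_eval P) (E_pow (E_inv hΘ) m)
  obtain ⟨ι, hι, f, ψ, h2, h3, h4⟩ := h1
  refine ⟨Fintype.card ι, fun i => f ((Fintype.equivFin ι).symm i),
    fun i => ψ ((Fintype.equivFin ι).symm i), fun i => h2 _, fun i => h3 _, fun g x => ?_⟩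
  rw [h4]
  exact ((Fintype.equivFin ι).symm.sum_comp fun i => f i g * ψ i x).symm

/-- **EXP** -/
theorem t_EXP (_hn : 3 ≤ n) (_hd : 2 ≤ d) : S_RES n d k → S_REPU n d k → S_EXP n d k := exp

end main

end

end Run7.h999.MD
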