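import Pool.Agent.Run7.h342.MD.Stm

/-!
# Project MD (helper342), piece F1
-/

set_option autoImplicit false

namespace Run7.h999.MD

open MvPolynomial Run7.h342.MD

noncomputable section

variable {n d : ℕ} {k : Type} [Field k] [IsAlgClosed k] [CharZero k]

theorem gact_mul (g g₀ : GL (Fin n) k) (x : U n d k) : gact (g * g₀) x = gact g (gact g₀ x) :=
  Subtype.ext (act_mul g g₀ x.1)

/-- **F1**, without conditions on `n`, `d` -/
theorem f1 (hDU : S_DU n d k) (hE : S_EXP n d k) (hR : S_REY n k) (hS : S_SLI n d k) :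
    S_F1 n d k := by
  intro h hst v hv
  obtain ⟨φ, hφ, -, h1⟩ := hS h hst v hv
  obtain ⟨N, f, ψ, hf, hψ, he⟩ := hE φ hφ
  obtain ⟨ρ, hρ1, hρ⟩ := hR
  obtain ⟨F, hF⟩ : ∃ F : Fin N → OG n k, ∀ i, (F i).1 = f i := ⟨fun i => ⟨f i, hf i⟩, fun i => rfl⟩
  have hsum : ∀ (a : Fin N → k) (g : GL (Fin n) k),
      (∑ i, a i • F i : OG n k).1 g = ∑ i, f i g * a i := by
    intro a g
    rw [AddSubmonoidClass.coe_finsetSum, Finset.sum_apply]
    refine Finset.sum_congr rfl fun i _ => ?_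
    rw [← hF i, mul_comm]
    rfl
  have hΦ : RegU (∑ i, ρ (F i) • ψ i) :=
    (OU n d k).sum_mem fun i _ => (OU n d k).smul_mem (hψ i) _
  have hval : ∀ x : U n d k, (∑ i, ρ (F i) • ψ i) x = ρ (∑ i, ψ i x • F i) := by
    intro x
    rw [Finset.sum_apply, map_sum]
    refine Finset.sum_congr rfl fun i _ => ?_
    rw [map_smul, Pi.smul_apply, smul_eq_mul, smul_eq_mul, mul_comm]
  refine ⟨∑ i, ρ (F i) • ψ i, mem_inv hΦ fun g₀ x => ?_, ?_⟩
  · rw [hval, hval]
    refine hρ g₀ _ _ fun g => ?_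
    rw [hsum, hsum, ← he, ← he, gact_mul]
  · have h2 : dU (∑ i, ρ (F i) • ψ i) h v = ρ (∑ i, dU (ψ i) h v • F i) := by
      rw [hDU.sum Finset.univ (fun i => ρ (F i) • ψ i)
        (fun i => (OU n d k).smul_mem (hψ i) _) h v, map_sum]
      refine Finset.sum_congr rfl fun i _ => ?_
      rw [hDU.smul _ _ (hψ i), map_smul, smul_eq_mul, mul_comm]
    have h3 : (∑ i, dU (ψ i) h v • F i) = (1 : OG n k) := by
      apply Subtype.ext
      funext g
      rw [hsum]
      have h4 : (fun x => φ (gact g x)) = ∑ i, f i g • ψ i := by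
        funext x
        rw [he, Finset.sum_apply]
        rfl
      have h5 := hDU.act φ hφ g h v
      rw [h4, hDU.sum Finset.univ (fun i => f i g • ψ i)
        (fun i => (OU n d k).smul_mem (hψ i) _) h v, h1 g] at h5
      have h6 : ∀ i, dU (f i g • ψ i) h v = f i g * dU (ψ i) h v := fun i => hDU.smul _ _ (hψ i) _ _
      simp only [h6] at h5
      rw [h5]
      rfl
    rw [h2, h3, hρ1]
    exact one_ne_zero

/-- **F1** -/
theorem t_F1 (_hn : 3 ≤ n) (_hd : 2 ≤ d) : S_DU n d k → S_EXP n d k → S_REY n k → S_SLI n d k →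
    S_F1 n d k := f1

end

end Run7.h999.MD
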